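import Pool.Agent.helper84.NR.SpecW

/-!
# Row BIP: bipartite counting
-/

set_option autoImplicit false

namespace Pool.Agent.helper84.NR

open scoped Classical
open Finset

theorem BIP_row (F : Type) (P X Y : Finset (F × F)) (g : F × F → F) (hX : X ⊆ P) (hXY : Disjoint X Y)
    (hr : ∀ A, min 2 (P.filter (fun p => g p = A)).card ≤ (X.filter (fun p => g p = A)).card)
    (p : F × F) (hp : p ∈ P) (h1 : (P.filter (fun q => g q = g p)).card = 1) : p ∈ X ∧ p ∉ Y := by
  have h2 := hr (g p)
  have h3 : (X.filter (fun q => g q = g p)) ⊆ P.filter (fun q => g q = g p) :=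
    filter_subset_filter _ hX
  have h4 : (P.filter (fun q => g q = g p)).card ≤ (X.filter (fun q => g q = g p)).card := by
    rw [h1] at h2 ⊢
    omega
  have h5 := eq_of_subset_of_card_le h3 h4
  have h6 : p ∈ P.filter (fun q => g q = g p) := mem_filter.2 ⟨hp, rfl⟩
  rw [← h5] at h6
  have h7 := (mem_filter.1 h6).1
  exact ⟨h7, fun h8 => (disjoint_left.1 hXY) h7 h8⟩

theorem BIP_two (F : Type) (P X : Finset (F × F)) (g : F × F → F)
    (hr : ∀ A, min 2 (P.filter (fun p => g p = A)).card ≤ (X.filter (fun p => g p = A)).card) :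
    2 * ((P.filter (fun p => 2 ≤ (P.filter (fun q => g q = g p)).card)).image g).card ≤
      (X.filter (fun p => 2 ≤ (P.filter (fun q => g q = g p)).card)).card := by
  set T := (P.filter (fun p => 2 ≤ (P.filter (fun q => g q = g p)).card)).image g with hT
  set X2 := X.filter (fun p => 2 ≤ (P.filter (fun q => g q = g p)).card) with hX2
  have h1 : ∀ A ∈ T, 2 ≤ (X2.filter (fun p => g p = A)).card := by
    intro A hA
    rw [hT, mem_image] at hA
    obtain ⟨p, hp, rfl⟩ := hA
    have hp2 := (mem_filter.1 hp).2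
    have h2 := hr (g p)
    have h3 : X.filter (fun q => g q = g p) ⊆ X2.filter (fun q => g q = g p) := by
      intro q hq
      rw [mem_filter] at hq
      rw [mem_filter, hX2, mem_filter]
      refine ⟨⟨hq.1, ?_⟩, hq.2⟩
      rw [hq.2]
      exact hp2
    have h4 := card_le_card h3
    omega
  have h5 : ∑ A ∈ T, (X2.filter (fun p => g p = A)).card ≤ X2.card := by
    rw [← card_biUnion]
    · apply card_le_card
      intro q hq
      rw [mem_biUnion] at hq
      obtain ⟨A, _, hq⟩ := hq
      exact (mem_filter.1 hq).1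
    · intro A _ B _ hAB
      rw [Function.onFun, disjoint_left]
      intro q hq hq'
      exact hAB ((mem_filter.1 hq).2.symm.trans (mem_filter.1 hq').2)
  have h6 : ∑ A ∈ T, 2 ≤ ∑ A ∈ T, (X2.filter (fun p => g p = A)).card := sum_le_sum h1
  rw [sum_const, smul_eq_mul] at h6
  omega

theorem BIP_arith (a b N : ℕ) (ha : 1 ≤ a) (hb : 1 ≤ b) (h1 : 2 * a + 2 * b ≤ N) (h2 : N ≤ a * b) :
    a + b + 8 ≤ N := by
  have h3 : 2 * a + 2 * b ≤ a * b := h1.trans h2
  have ha3 : 3 ≤ a := by
    by_contra h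
    have : a = 1 ∨ a = 2 := by omega
    rcases this with rfl | rfl <;> omega
  have hb3 : 3 ≤ b := by
    by_contra h
    have : b = 1 ∨ b = 2 := by omega
    rcases this with rfl | rfl <;> omega
  obtain ⟨a, rfl⟩ : ∃ a', a = a' + 2 := ⟨a - 2, by omega⟩
  obtain ⟨b, rfl⟩ : ∃ b', b = b' + 2 := ⟨b - 2, by omega⟩
  have h4 : 4 ≤ a * b := by nlinarith
  have h5 : 4 ≤ a + b := by
    by_contra h
    have : a ≤ 3 := by omega
    have hb' : b ≤ 3 - a := by omega
    interval_cases a <;> interval_cases b <;> omega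
  omega

theorem BIP : BIP_stmt := by
  intro F P X Y hX hY hXY hne hr hc
  have hYX : Disjoint Y X := hXY.symm
  set R2 := P.filter (fun p => 2 ≤ (P.filter (fun q => q.1 = p.1)).card) with hR2
  set C2 := P.filter (fun p => 2 ≤ (P.filter (fun q => q.2 = p.2)).card) with hC2
  set R1 := P.filter (fun p => (P.filter (fun q => q.1 = p.1)).card = 1) with hR1
  set C1 := P.filter (fun p => (P.filter (fun q => q.2 = p.2)).card = 1) with hC1
  have hr1 : ∀ p ∈ P, 1 ≤ (P.filter (fun q => q.1 = p.1)).card := fun p hp =>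
    card_pos.2 ⟨p, mem_filter.2 ⟨hp, rfl⟩⟩
  have hc1 : ∀ p ∈ P, 1 ≤ (P.filter (fun q => q.2 = p.2)).card := fun p hp =>
    card_pos.2 ⟨p, mem_filter.2 ⟨hp, rfl⟩⟩
  have hRX : ∀ p ∈ P, (P.filter (fun q => q.1 = p.1)).card = 1 → p ∈ X ∧ p ∉ Y := fun p hp h =>
    BIP_row F P X Y Prod.fst hX hXY hr p hp h
  have hCY : ∀ p ∈ P, (P.filter (fun q => q.2 = p.2)).card = 1 → p ∈ Y ∧ p ∉ X := fun p hp h =>
    BIP_row F P Y X Prod.snd hY hYX hc p hp h
  have hXa := BIP_two F P X Prod.fst hr
  have hYb := BIP_two F P Y Prod.snd hc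
  set X2 := X.filter (fun p => 2 ≤ (P.filter (fun q => q.1 = p.1)).card) with hX2
  set Y2 := Y.filter (fun p => 2 ≤ (P.filter (fun q => q.2 = p.2)).card) with hY2
  set P2 := R2 ∩ C2 with hP2
  have hXP : X2 ⊆ P2 := by
    intro p hp
    rw [hX2, mem_filter] at hp
    have hpP := hX hp.1
    rw [hP2, mem_inter, hR2, hC2, mem_filter, mem_filter]
    refine ⟨⟨hpP, hp.2⟩, hpP, ?_⟩
    by_contra h
    have h1 := hc1 p hpP
    exact (hCY p hpP (by omega)).2 hp.1
  have hYP : Y2 ⊆ P2 := by
    intro p hp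
    rw [hY2, mem_filter] at hp
    have hpP := hY hp.1
    rw [hP2, mem_inter, hR2, hC2, mem_filter, mem_filter]
    refine ⟨⟨hpP, ?_⟩, hpP, hp.2⟩
    by_contra h
    have h1 := hr1 p hpP
    exact (hRX p hpP (by omega)).2 hp.1
  have hd2 : Disjoint X2 Y2 := disjoint_of_subset_left (filter_subset _ _)
    (disjoint_of_subset_right (filter_subset _ _) hXY)
  have hN1 : X2.card + Y2.card ≤ P2.card := by
    rw [← card_union_of_disjoint hd2]
    exact card_le_card (union_subset hXP hYP)
  have hN2 : P2.card ≤ (R2.image Prod.fst).card * (C2.image Prod.snd).card := by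
    rw [← card_product]
    apply card_le_card
    intro p hp
    rw [hP2, mem_inter] at hp
    rw [mem_product]
    exact ⟨mem_image_of_mem _ hp.1, mem_image_of_mem _ hp.2⟩
  -- both numbers are positive
  have haX : ∀ p ∈ X2, 1 ≤ (R2.image Prod.fst).card ∧ 1 ≤ (C2.image Prod.snd).card := by
    intro p hp
    have h1 := hXP hp
    rw [hP2, mem_inter] at h1
    exact ⟨card_pos.2 ⟨_, mem_image_of_mem _ h1.1⟩, card_pos.2 ⟨_, mem_image_of_mem _ h1.2⟩⟩
  have haY : ∀ p ∈ Y2, 1 ≤ (R2.image Prod.fst).card ∧ 1 ≤ (C2.image Prod.snd).card := by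
    intro p hp
    have h1 := hYP hp
    rw [hP2, mem_inter] at h1
    exact ⟨card_pos.2 ⟨_, mem_image_of_mem _ h1.1⟩, card_pos.2 ⟨_, mem_image_of_mem _ h1.2⟩⟩
  have hpos : 1 ≤ (R2.image Prod.fst).card ∧ 1 ≤ (C2.image Prod.snd).card := by
    obtain ⟨p, hp⟩ := hne
    by_cases h : 2 ≤ (P.filter (fun q => q.1 = p.1)).card
    · have h1 : 1 ≤ (R2.image Prod.fst).card :=
        card_pos.2 ⟨_, mem_image_of_mem _ (mem_filter.2 ⟨hp, h⟩)⟩
      have h2 : 0 < X2.card := by
        have h3 : 2 * (R2.image Prod.fst).card ≤ X2.card := hXa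
        omega
      obtain ⟨q, hq⟩ := card_pos.1 h2
      exact haX q hq
    · have h0 := hr1 p hp
      have h1 := hRX p hp (by omega)
      have h2 : 2 ≤ (P.filter (fun q => q.2 = p.2)).card := by
        by_contra h3
        have h4 := hc1 p hp
        exact h1.2 (hCY p hp (by omega)).1
      have h5 : 1 ≤ (C2.image Prod.snd).card :=
        card_pos.2 ⟨_, mem_image_of_mem _ (mem_filter.2 ⟨hp, h2⟩)⟩
      have h6 : 0 < Y2.card := by
        have h3 : 2 * (C2.image Prod.snd).card ≤ Y2.card := hYb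
        omega
      obtain ⟨q, hq⟩ := card_pos.1 h6
      exact haY q hq
  have hXa' : 2 * (R2.image Prod.fst).card ≤ X2.card := hXa
  have hYb' : 2 * (C2.image Prod.snd).card ≤ Y2.card := hYb
  have hmain := BIP_arith _ _ P2.card hpos.1 hpos.2 (by omega) hN2
  -- the remaining pairs
  have hI1 : (P.image Prod.fst).card ≤ R1.card + (R2.image Prod.fst).card := by
    have hsub : P.image Prod.fst ⊆ R1.image Prod.fst ∪ R2.image Prod.fst := by
      intro A hA
      rw [mem_image] at hA
      obtain ⟨p, hp, rfl⟩ := hA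
      rw [mem_union]
      have h1 := hr1 p hp
      by_cases h : 2 ≤ (P.filter (fun q => q.1 = p.1)).card
      · exact Or.inr (mem_image_of_mem _ (mem_filter.2 ⟨hp, h⟩))
      · exact Or.inl (mem_image_of_mem _ (mem_filter.2 ⟨hp, by omega⟩))
    have h2 := card_le_card hsub
    have h3 := card_union_le (R1.image Prod.fst) (R2.image Prod.fst)
    have h4 : (R1.image Prod.fst).card ≤ R1.card := card_image_le
    omega
  have hI2 : (P.image Prod.snd).card ≤ C1.card + (C2.image Prod.snd).card := by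
    have hsub : P.image Prod.snd ⊆ C1.image Prod.snd ∪ C2.image Prod.snd := by
      intro A hA
      rw [mem_image] at hA
      obtain ⟨p, hp, rfl⟩ := hA
      rw [mem_union]
      have h1 := hc1 p hp
      by_cases h : 2 ≤ (P.filter (fun q => q.2 = p.2)).card
      · exact Or.inr (mem_image_of_mem _ (mem_filter.2 ⟨hp, h⟩))
      · exact Or.inl (mem_image_of_mem _ (mem_filter.2 ⟨hp, by omega⟩))
    have h2 := card_le_card hsub
    have h3 := card_union_le (C1.image Prod.snd) (C2.image Prod.snd)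
    have h4 : (C1.image Prod.snd).card ≤ C1.card := card_image_le
    omega
  have hdRC : Disjoint R1 C1 := by
    rw [disjoint_left]
    intro p h1 h2
    rw [hR1, mem_filter] at h1
    rw [hC1, mem_filter] at h2
    exact (hRX p h1.1 h1.2).2 (hCY p h2.1 h2.2).1
  have hdP : Disjoint (R1 ∪ C1) P2 := by
    rw [disjoint_left]
    intro p h1 h2
    rw [hP2, mem_inter, hR2, hC2, mem_filter, mem_filter] at h2
    rw [mem_union, hR1, hC1, mem_filter, mem_filter] at h1
    rcases h1 with h1 | h1
    · have := h1.2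
      have := h2.1.2
      omega
    · have := h1.2
      have := h2.2.2
      omega
  have htot : R1.card + C1.card + P2.card ≤ P.card := by
    rw [← card_union_of_disjoint hdRC, ← card_union_of_disjoint hdP]
    apply card_le_card
    intro p hp
    rw [mem_union, mem_union] at hp
    rcases hp with (hp | hp) | hp
    · exact (mem_filter.1 hp).1
    · exact (mem_filter.1 hp).1
    · exact (mem_filter.1 (mem_inter.1 hp).1).1
  omega

end Pool.Agent.helper84.NR
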